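import Pool.Agent.Run7.h346.CT.Wt
import Pool.Agent.Run7.h346.LC.Low

/-!
Coverings of the 4-sets by triples.
-/

set_option autoImplicit false
open Finset
open scoped Classical

namespace Pool.Agent.Run7.h346.CT

open Pool.Agent.Run7.h346.LC

/-- `T` consists of triples, and every set of four vertices contains a member of `T` -/
def Cov {n : ℕ} (T : Finset (Finset (Fin n))) : Prop :=
  (∀ e ∈ T, e.card = 3) ∧ ∀ S : Finset (Fin n), S.card = 4 → ∃ e ∈ T, e ⊆ S

/-- the number of members of `T` which contain `P` -/
def dg {n : ℕ} (T : Finset (Finset (Fin n))) (P : Finset (Fin n)) : ℕ :=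
  (T.filter fun e => P ⊆ e).card

/-- three different vertices which do not form a member of `T` -/
def rel {n : ℕ} (T : Finset (Finset (Fin n))) (x y z : Fin n) : Prop :=
  x ≠ y ∧ x ≠ z ∧ y ≠ z ∧ {x, y, z} ∉ T

theorem rel_irr {n : ℕ} (T : Finset (Finset (Fin n))) (x y z : Fin n) (h : rel T x y z) : x ≠ y := h.1

theorem rel_free {n : ℕ} {T : Finset (Finset (Fin n))} (hT : Cov T) : Free (rel T) where
  s1 := fun x y z h => by
    obtain ⟨h1, h2, h3, h4⟩ := h
    exact ⟨h1.symm, h3, h2, by rw [Finset.insert_comm]; exact h4⟩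
  s2 := fun x y z h => by
    obtain ⟨h1, h2, h3, h4⟩ := h
    exact ⟨h2, h1, h3.symm, by rw [Finset.pair_comm]; exact h4⟩
  free := by
    rintro x y z w ⟨⟨a1, a2, a3, a4⟩, ⟨b1, b2, b3, b4⟩, ⟨c1, c2, c3, c4⟩, ⟨d1, d2, d3, d4⟩⟩
    have hS : ({x, y, z, w} : Finset (Fin n)).card = 4 := by
      rw [card_insert_of_notMem (by simp [a1, a2, b2]), card_insert_of_notMem (by simp [a3, b3]),
        card_pair c3]
    obtain ⟨s, hsT, hs⟩ := hT.2 _ hS
    have hs3 := hT.1 s hsT
    have hd : (({x, y, z, w} : Finset (Fin n)) \ s).card = 1 := by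
      rw [card_sdiff_of_subset hs]
      omega
    obtain ⟨a, ha⟩ := card_eq_one.1 hd
    have haS : a ∈ ({x, y, z, w} : Finset (Fin n)) :=
      (Finset.mem_sdiff.1 (ha ▸ mem_singleton_self a : a ∈ _ \ s)).1
    have hse : s = ({x, y, z, w} : Finset (Fin n)) \ {a} := by
      rw [← ha, sdiff_sdiff_right_self]
      exact (inter_eq_right.2 hs).symm
    rw [hse] at hsT
    simp only [mem_insert, mem_singleton] at haS
    rcases haS with rfl | rfl | rfl | rfl
    · apply d4
      convert hsT using 1
      ext v
      simp only [Finset.mem_sdiff, mem_insert, mem_singleton]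
      constructor
      · intro h
        refine ⟨Or.inr h, ?_⟩
        rintro rfl
        rcases h with h | h | h
        · exact a1 h
        · exact a2 h
        · exact b2 h
      · rintro ⟨h | h, h'⟩
        · exact absurd h h'
        · exact h
    · apply c4
      convert hsT using 1
      ext v
      simp only [Finset.mem_sdiff, mem_insert, mem_singleton]
      constructor
      · rintro (h | h)
        · exact ⟨Or.inl h, fun h' => a1 (h ▸ h')⟩
        · refine ⟨Or.inr (Or.inr h), ?_⟩
          rintro rfl
          rcases h with h | h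
          · exact a3 h
          · exact b3 h
      · rintro ⟨h | h | h, h'⟩
        · exact Or.inl h
        · exact absurd h h'
        · exact Or.inr h
    · apply b4
      convert hsT using 1
      ext v
      simp only [Finset.mem_sdiff, mem_insert, mem_singleton]
      constructor
      · rintro (h | h | h)
        · exact ⟨Or.inl h, fun h' => a2 (h ▸ h')⟩
        · exact ⟨Or.inr (Or.inl h), fun h' => a3 (h ▸ h')⟩
        · exact ⟨Or.inr (Or.inr (Or.inr h)), fun h' => c3 (h' ▸ h)⟩
      · rintro ⟨h | h | h | h, h'⟩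
        · exact Or.inl h
        · exact Or.inr (Or.inl h)
        · exact absurd h h'
        · exact Or.inr (Or.inr h)
    · apply a4
      convert hsT using 1
      ext v
      simp only [Finset.mem_sdiff, mem_insert, mem_singleton]
      constructor
      · rintro (h | h | h)
        · exact ⟨Or.inl h, fun h' => b2 (h ▸ h')⟩
        · exact ⟨Or.inr (Or.inl h), fun h' => b3 (h ▸ h')⟩
        · exact ⟨Or.inr (Or.inr (Or.inl h)), fun h' => c3 (h ▸ h')⟩
      · rintro ⟨h | h | h | h, h'⟩
        · exact Or.inl h
        · exact Or.inr (Or.inl h)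
        · exact Or.inr (Or.inr h)
        · exact absurd h h'

theorem card_three {n : ℕ} {T : Finset (Finset (Fin n))} (hT : ∀ e ∈ T, e.card = 3) {x y z : Fin n}
    (hxy : x ≠ y) (h : {x, y, z} ∈ T) : x ≠ z ∧ y ≠ z := by
  have h1 := hT _ h
  refine ⟨?_, ?_⟩
  · rintro rfl
    have : ({x, y, x} : Finset (Fin n)) = {x, y} := by ext w; simp; tauto
    rw [this, card_pair hxy] at h1
    omega
  · rintro rfl
    have : ({x, y, y} : Finset (Fin n)) = {x, y} := by simp
    rw [this, card_pair hxy] at h1
    omega

theorem card_M {n : ℕ} {T : Finset (Finset (Fin n))} (hT : ∀ e ∈ T, e.card = 3) {x y : Fin n}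
    (hxy : x ≠ y) : (M (rel T) x y).card = dg T {x, y} + 2 := by
  set Z := univ.filter fun z => ({x, y, z} : Finset (Fin n)) ∈ T with hZ
  have hZx : ∀ z ∈ Z, x ≠ z ∧ y ≠ z := fun z hz => card_three hT hxy (mem_filter.1 hz).2
  have h1 : M (rel T) x y = insert x (insert y Z) := by
    ext z
    rw [mem_M, mem_insert, mem_insert, hZ, mem_filter]
    unfold rel
    have e1 : x = z ↔ z = x := eq_comm
    have e2 : y = z ↔ z = y := eq_comm
    simp only [mem_univ, true_and, ne_eq]
    tauto
  have h2 : Z.card = dg T {x, y} := by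
    unfold dg
    rw [← card_image_of_injOn (s := Z) (f := fun z => ({x, y, z} : Finset (Fin n)))]
    · congr 1
      ext e
      rw [mem_image, mem_filter]
      constructor
      · rintro ⟨z, hz, rfl⟩
        refine ⟨(mem_filter.1 hz).2, ?_⟩
        intro w hw
        simp only [mem_insert, mem_singleton] at hw ⊢
        tauto
      · rintro ⟨heT, hP⟩
        have h3 := hT e heT
        have h4 : (e \ {x, y}).card = 1 := by
          rw [card_sdiff_of_subset hP, h3, card_pair hxy]
        obtain ⟨z, hz⟩ := card_eq_one.1 h4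
        have h5 : e = {x, y, z} := by
          have : e = {x, y} ∪ (e \ {x, y}) := (union_sdiff_of_subset hP).symm
          rw [this, hz]
          ext w
          simp
        exact ⟨z, mem_filter.2 ⟨mem_univ _, h5 ▸ heT⟩, h5.symm⟩
    · intro z hz z' hz' hzz
      have a1 := hZx z hz
      have h3 : z ∈ ({x, y, z'} : Finset (Fin n)) := by
        have : z ∈ ({x, y, z} : Finset (Fin n)) := by simp
        have h4 : ({x, y, z} : Finset (Fin n)) = {x, y, z'} := hzz
        rwa [h4] at this
      simp only [mem_insert, mem_singleton] at h3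
      rcases h3 with h3 | h3 | h3
      · exact absurd h3.symm a1.1
      · exact absurd h3.symm a1.2
      · exact h3
  rw [h1, card_insert_of_notMem, card_insert_of_notMem, h2]
  · intro h3
    exact (hZx y h3).2 rfl
  · rw [mem_insert, not_or]
    exact ⟨hxy, fun h3 => (hZx x h3).1 rfl⟩

theorem mem_N_iff {n b : ℕ} {T : Finset (Finset (Fin n))} (hT : ∀ e ∈ T, e.card = 3)
    (hn : b + 1 < n) (x y : Fin n) : y ∈ N (rel T) b x ↔ x ≠ y ∧ dg T {x, y} < b := by
  rcases eq_or_ne x y with rfl | hxy
  · have := y_notMem (H := rel T) (b := b) (rel_irr T) (by rw [Fintype.card_fin]; exact hn) x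
    simp [this]
  · rw [mem_N, card_M hT hxy]
    constructor
    · intro h
      exact ⟨hxy, by omega⟩
    · rintro ⟨-, h⟩
      omega

/-- a sum over ordered pairs is twice the sum over the unordered pairs -/
theorem sum_pairs {n : ℕ} {R : Type} [CommSemiring R] (F : Finset (Fin n) → R) :
    ∑ p ∈ (univ : Finset (Fin n)).offDiag, F {p.1, p.2} =
      2 * ∑ P ∈ (univ : Finset (Fin n)).powersetCard 2, F P := by
  rw [← sum_fiberwise_of_maps_to (s := (univ : Finset (Fin n)).offDiag)
    (t := (univ : Finset (Fin n)).powersetCard 2) (g := fun p => ({p.1, p.2} : Finset (Fin n)))]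
  · rw [mul_sum]
    refine sum_congr rfl fun P hP => ?_
    obtain ⟨a, c, hac, rfl⟩ := card_eq_two.1 (mem_powersetCard.1 hP).2
    have h1 : ((univ : Finset (Fin n)).offDiag.filter fun p => ({p.1, p.2} : Finset (Fin n)) = {a, c}) =
        {(a, c), (c, a)} := by
      ext ⟨p, q⟩
      simp only [mem_filter, mem_offDiag, mem_univ, true_and, mem_insert, mem_singleton,
        Prod.mk.injEq]
      constructor
      · rintro ⟨h1, h2⟩
        have h3 : p ∈ ({a, c} : Finset (Fin n)) := by rw [← h2]; simp
        have h4 : q ∈ ({a, c} : Finset (Fin n)) := by rw [← h2]; simp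
        simp only [mem_insert, mem_singleton] at h3 h4
        rcases h3 with h3 | h3 <;> rcases h4 with h4 | h4
        · exact absurd (h3.trans h4.symm) h1
        · exact Or.inl ⟨h3, h4⟩
        · exact Or.inr ⟨h3, h4⟩
        · exact absurd (h3.trans h4.symm) h1
      · rintro (⟨rfl, rfl⟩ | ⟨rfl, rfl⟩)
        · exact ⟨hac, rfl⟩
        · exact ⟨hac.symm, Finset.pair_comm _ _⟩
    rw [h1, sum_pair (by
      intro h2
      exact hac (Prod.mk.inj h2).1)]
    simp only
    rw [Finset.pair_comm c a, two_mul]
  · rintro ⟨p, q⟩ hp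
    rw [mem_offDiag] at hp
    rw [mem_powersetCard]
    exact ⟨subset_univ _, card_pair hp.2.2⟩

end Pool.Agent.Run7.h346.CT
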