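import Pool.Agent.Run7.h346.LC.Core

/-!
Pairs of codegree at least `n - b - 1` in a 3-graph without a complete 3-graph on four vertices:
structure of the graph of these pairs for fixed `b`.
-/

set_option autoImplicit false
open Finset
open scoped Classical

namespace Pool.Agent.Run7.h346.CT

open Pool.Agent.Run7.h346.LC

variable {V : Type} [Fintype V] {H : V → V → V → Prop} {b : ℕ}

/-- the vertices `y` such that at most `b + 1` vertices (among them `x` and `y`) form no edge with
`x`, `y` -/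
noncomputable def N (H : V → V → V → Prop) (b : ℕ) (x : V) : Finset V := nb H ((b : ℝ) + 1) x

theorem mem_N {x y : V} : y ∈ N H b x ↔ (M H x y).card ≤ b + 1 := by
  unfold N
  rw [mem_nb, m]
  exact_mod_cast Iff.rfl

theorem N_symm (h : Free H) {x y : V} (hy : y ∈ N H b x) : x ∈ N H b y := by
  rw [mem_N] at *
  rwa [M_symm h]

/-- the basic fact -/
theorem cross (h : Free H) (x y z w : V) :
    z ∈ M H x y ∨ w ∈ M H x y ∨ x ∈ M H z w ∨ y ∈ M H z w := by
  by_contra hcon
  simp only [mem_M, not_or, not_not] at hcon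
  obtain ⟨h1, h2, h3, h4⟩ := hcon
  exact h.free x y z w ⟨h1, h2, h.s1 _ _ _ (h.s2 _ _ _ h3), h.s1 _ _ _ (h.s2 _ _ _ h4)⟩

/-- a bound for a product of two sets -/
theorem prod_le {W : Type} (Z Z' : Finset W) (A A' : W → Finset W) (S : ℕ)
    (hA : ∀ z ∈ Z, (A z).card ≤ S) (hA' : ∀ z ∈ Z', (A' z).card ≤ S)
    (hc : ∀ z ∈ Z, ∀ z' ∈ Z', z' ∈ A z ∨ z ∈ A' z') :
    Z.card * Z'.card ≤ S * (Z.card + Z'.card) := by
  have h1 : Z ×ˢ Z' ⊆ (Z.sigma A).image (fun p => (p.1, p.2)) ∪
      (Z'.sigma A').image (fun p => (p.2, p.1)) := by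
    rintro ⟨z, z'⟩ hz
    rw [mem_product] at hz
    rw [mem_union, mem_image, mem_image]
    rcases hc z hz.1 z' hz.2 with h2 | h2
    · left
      exact ⟨⟨z, z'⟩, mem_sigma.2 ⟨hz.1, h2⟩, rfl⟩
    · right
      exact ⟨⟨z', z⟩, mem_sigma.2 ⟨hz.2, h2⟩, rfl⟩
  have h2 := card_le_card h1
  rw [card_product] at h2
  refine h2.trans ((card_union_le _ _).trans ?_)
  have h3 : ((Z.sigma A).image (fun p : (_ : W) × W => (p.1, p.2))).card ≤ Z.card * S := by
    refine card_image_le.trans ?_
    rw [card_sigma, ← smul_eq_mul]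
    exact sum_le_card_nsmul _ _ _ hA
  have h4 : ((Z'.sigma A').image (fun p : (_ : W) × W => (p.2, p.1))).card ≤ Z'.card * S := by
    refine card_image_le.trans ?_
    rw [card_sigma, ← smul_eq_mul]
    exact sum_le_card_nsmul _ _ _ hA'
  calc _ ≤ Z.card * S + Z'.card * S := add_le_add h3 h4
    _ = _ := by ring

/-- `x'` is missing at few of the neighbours of `x` only -/
noncomputable def Z (H : V → V → V → Prop) (b : ℕ) (x x' : V) : Finset V :=
  (N H b x).filter fun z => x' ∉ M H x z

theorem arrow (h : Free H) (x x' : V) :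
    (Z H b x x').card ≤ 2 * (b + 1) ∨ (Z H b x' x).card ≤ 2 * (b + 1) := by
  by_contra hcon
  rw [not_or, not_le, not_le] at hcon
  have h1 := prod_le (Z H b x x') (Z H b x' x) (fun z => M H x z) (fun z => M H x' z) (b + 1)
    (fun z hz => mem_N.1 (mem_filter.1 hz).1) (fun z hz => mem_N.1 (mem_filter.1 hz).1)
    (fun z hz z' hz' => by
      have h2 := (mem_filter.1 hz).2
      have h3 := (mem_filter.1 hz').2
      rcases cross h x z x' z' with h4 | h4 | h4 | h4
      · exact absurd h4 h2
      · exact Or.inl h4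
      · exact absurd h4 h3
      · exact Or.inr h4)
  obtain ⟨h2, h3⟩ := hcon
  nlinarith

/-- a vertex of large degree has few successors -/
theorem out_lt (h : Free H) (hirr : ∀ x y z, H x y z → x ≠ y) (hb : 0 < b) {x : V}
    (hx : 2 * b ^ 2 + 3 * b < (N H b x).card) (A : Finset V) (hxA : x ∉ A)
    (hA : ∀ x' ∈ A, (Z H b x x').card ≤ 2 * (b + 1)) : A.card < b := by
  by_contra hcon
  rw [not_lt] at hcon
  obtain ⟨A', hA', hc⟩ := exists_subset_card_eq hcon
  have h1 : N H b x ⊆ A' ∪ A'.biUnion fun x' => Z H b x x' := by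
    intro z hz
    rw [mem_union, mem_biUnion]
    by_contra hn
    rw [not_or, not_exists] at hn
    obtain ⟨n1, n2⟩ := hn
    have h2 : insert x (insert z A') ⊆ M H x z := by
      intro y hy
      rw [mem_insert, mem_insert] at hy
      rw [mem_M]
      rcases hy with rfl | rfl | hy
      · exact fun h3 => hirr _ _ _ (h.s2 _ _ _ h3) rfl
      · exact fun h3 => hirr _ _ _ (h.s2 _ _ _ (h.s1 _ _ _ h3)) rfl
      · intro h3
        apply n2 y
        refine ⟨hy, mem_filter.2 ⟨hz, ?_⟩⟩
        rw [mem_M, not_not]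
        exact h3
    have h3 := card_le_card h2
    have h4 := mem_N.1 hz
    have h5 : x ∉ insert z A' := by
      rw [mem_insert, not_or]
      refine ⟨?_, fun h => hxA (hA' h)⟩
      rintro rfl
      have : (univ : Finset V) ⊆ M H x x := fun y _ => by
        rw [mem_M]
        exact fun h3 => hirr _ _ _ h3 rfl
      have h6 := card_le_card this
      have h7 := card_le_univ (N H b x)
      rw [card_univ] at h6
      nlinarith
    rw [card_insert_of_notMem h5, card_insert_of_notMem n1, hc] at h3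
    omega
  have h2 := card_le_card h1
  have h3 : (A'.biUnion fun x' => Z H b x x').card ≤ b * (2 * (b + 1)) := by
    refine card_biUnion_le.trans ?_
    rw [← hc, ← smul_eq_mul]
    refine sum_le_card_nsmul _ _ _ fun y hy => ?_
    rw [hc]
    exact hA y (hA' hy)
  have h4 := card_union_le A' (A'.biUnion fun x' => Z H b x x')
  nlinarith

/-- the vertices of large degree -/
noncomputable def B (H : V → V → V → Prop) (b : ℕ) : Finset V :=
  univ.filter fun x => 2 * b ^ 2 + 3 * b < (N H b x).card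

theorem card_B (h : Free H) (hirr : ∀ x y z, H x y z → x ≠ y) (hb : 0 < b) :
    (B H b).card ≤ 2 * b - 1 := by
  set out : V → Finset V := fun x => (B H b).filter fun x' => x' ≠ x ∧ (Z H b x x').card ≤ 2 * (b + 1)
    with hout
  have h1 : ∀ x ∈ B H b, (out x).card ≤ b - 1 := by
    intro x hx
    have := out_lt h hirr hb (mem_filter.1 hx).2 (out x) (fun h2 => (mem_filter.1 h2).2.1 rfl)
      (fun x' hx' => (mem_filter.1 hx').2.2)
    omega
  have h2 : (B H b).offDiag ⊆ ((B H b).sigma out).image (fun p => (p.1, p.2)) ∪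
      ((B H b).sigma out).image (fun p => (p.2, p.1)) := by
    rintro ⟨x, x'⟩ hx
    rw [mem_offDiag] at hx
    obtain ⟨a1, a2, a3⟩ := hx
    rw [mem_union, mem_image, mem_image]
    rcases arrow (b := b) h x x' with h3 | h3
    · left
      exact ⟨⟨x, x'⟩, mem_sigma.2 ⟨a1, mem_filter.2 ⟨a2, fun h4 => a3 h4.symm, h3⟩⟩, rfl⟩
    · right
      exact ⟨⟨x', x⟩, mem_sigma.2 ⟨a2, mem_filter.2 ⟨a1, a3, h3⟩⟩, rfl⟩
  have h3 := (card_le_card h2).trans (card_union_le _ _)
  have h4 : ((B H b).sigma out).card ≤ (B H b).card * (b - 1) := by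
    rw [card_sigma, ← smul_eq_mul]
    exact sum_le_card_nsmul _ _ _ h1
  have h5 := card_image_le (s := (B H b).sigma out) (f := fun p : (_ : V) × V => (p.1, p.2))
  have h6 := card_image_le (s := (B H b).sigma out) (f := fun p : (_ : V) × V => (p.2, p.1))
  rw [offDiag_card] at h3
  by_contra hcon
  rw [not_le] at hcon
  obtain ⟨c, rfl⟩ : ∃ c, b = c + 1 := ⟨b - 1, by omega⟩
  obtain ⟨d, hd⟩ : ∃ d, (B H (c + 1)).card = d + 1 := ⟨(B H (c + 1)).card - 1, by omega⟩
  rw [hd] at h3 h4 hcon
  have e1 : (d + 1) * (d + 1) - (d + 1) = (d + 1) * d := by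
    have : (d + 1) * (d + 1) = (d + 1) * d + (d + 1) := by ring
    omega
  rw [e1] at h3
  simp only [Nat.add_sub_cancel] at h4
  have e2 : (d + 1) * d ≤ 2 * ((d + 1) * c) := by omega
  have e3 : (d + 1) * d ≤ (d + 1) * (2 * c) := by linarith
  have e4 := Nat.le_of_mul_le_mul_left e3 (Nat.succ_pos d)
  omega

/-- two vertices form an edge with few of their common neighbours -/
theorem card_W (h : Free H) (x x' : V) :
    (univ.filter fun y => y ∈ N H b x ∧ y ∈ N H b x' ∧ H x x' y).card ≤ 2 * (b + 1) := by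
  set W := univ.filter fun y => y ∈ N H b x ∧ y ∈ N H b x' ∧ H x x' y with hW
  have h1 := prod_le W W (fun z => M H x z) (fun z => M H x' z) (b + 1)
    (fun z hz => mem_N.1 (mem_filter.1 hz).2.1) (fun z hz => mem_N.1 (mem_filter.1 hz).2.2.1)
    (fun z hz z' hz' => by
      have h2 := (mem_filter.1 hz).2.2.2
      have h3 := (mem_filter.1 hz').2.2.2
      by_contra hcon
      rw [not_or, mem_M, mem_M, not_not, not_not] at hcon
      exact h.free x x' z z' ⟨h2, h3, hcon.1, h.s2 _ _ _ hcon.2⟩)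
  rcases Nat.eq_zero_or_pos W.card with h2 | h2
  · rw [h2]; omega
  · have : W.card * W.card ≤ W.card * (2 * (b + 1)) := by nlinarith
    exact Nat.le_of_mul_le_mul_left this h2

end Pool.Agent.Run7.h346.CT
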