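import Pool.Agent.Run7.h346.CT.Core

/-!
The number of pairs of codegree at least `n - b - 1` in a `K_4^3`-free 3-graph.
-/

set_option autoImplicit false
open Finset
open scoped Classical

namespace Pool.Agent.Run7.h346.CT

open Pool.Agent.Run7.h346.LC

variable {V : Type} [Fintype V] {H : V → V → V → Prop} {b : ℕ}

/-- the vertices which are not in `B` -/
noncomputable def L (H : V → V → V → Prop) (b : ℕ) : Finset V := univ.filter fun x => x ∉ B H b

/-- neighbours in `B` -/
noncomputable def NB (H : V → V → V → Prop) (b : ℕ) (y : V) : Finset V :=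
  (N H b y).filter fun x => x ∈ B H b

/-- neighbours in `L` -/
noncomputable def NL (H : V → V → V → Prop) (b : ℕ) (y : V) : Finset V :=
  (N H b y).filter fun x => x ∈ L H b

/-- the number of the pairs of neighbours in `B` which form an edge with `y` -/
noncomputable def f (H : V → V → V → Prop) (b : ℕ) (y : V) : ℕ :=
  ∑ x ∈ NB H b y, ((NB H b y).filter fun x' => H x x' y).card

theorem mem_L {x : V} : x ∈ L H b ↔ x ∉ B H b := by simp [L]

theorem self_M (h : Free H) (hirr : ∀ x y z, H x y z → x ≠ y) (x y : V) : x ∈ M H x y ∧ y ∈ M H x y := by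
  rw [mem_M, mem_M]
  exact ⟨fun h3 => hirr _ _ _ (h.s2 _ _ _ h3) rfl,
    fun h3 => hirr _ _ _ (h.s2 _ _ _ (h.s1 _ _ _ h3)) rfl⟩

theorem NB_le (h : Free H) (hirr : ∀ x y z, H x y z → x ≠ y) {x y : V} (hy : y ∉ B H b)
    (hx : x ∈ NB H b y) :
    (NB H b y).card ≤ b + ((NB H b y).filter fun x' => H x x' y).card := by
  have h1 : NB H b y ⊆ (M H x y).erase y ∪ (NB H b y).filter fun x' => H x x' y := by
    intro x' hx'
    rw [mem_union, mem_erase, mem_filter]
    by_cases h2 : H x x' y
    · exact Or.inr ⟨hx', h2⟩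
    · left
      refine ⟨?_, ?_⟩
      · rintro rfl
        exact hy (mem_filter.1 hx').2
      · rw [mem_M]
        exact fun h3 => h2 (h.s2 _ _ _ h3)
  refine (card_le_card h1).trans ((card_union_le _ _).trans ?_)
  have h2 := card_erase_of_mem (self_M h hirr x y).2
  have h3 := mem_N.1 (N_symm h (mem_filter.1 hx).1)
  omega

theorem g_sq (h : Free H) (hirr : ∀ x y z, H x y z → x ≠ y) {y : V} (hy : y ∉ B H b) :
    (NB H b y).card * (NB H b y).card ≤ b * (NB H b y).card + f H b y := by
  have h1 : ∑ x ∈ NB H b y, (NB H b y).card ≤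
      ∑ x ∈ NB H b y, (b + ((NB H b y).filter fun x' => H x x' y).card) :=
    sum_le_sum fun x hx => NB_le h hirr hy hx
  rw [sum_const, sum_add_distrib, sum_const, smul_eq_mul, smul_eq_mul] at h1
  unfold f
  linarith

theorem F_le (h : Free H) (hirr : ∀ x y z, H x y z → x ≠ y) (hb : 0 < b) :
    ∑ y ∈ L H b, f H b y ≤ 8 * b ^ 3 := by
  have h1 : ∑ y ∈ L H b, f H b y ≤ ∑ x ∈ B H b, ∑ x' ∈ B H b,
      (univ.filter fun y => y ∈ N H b x ∧ y ∈ N H b x' ∧ H x x' y).card := by
    have e1 : ∑ x ∈ B H b, ∑ x' ∈ B H b,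
        (univ.filter fun y => y ∈ N H b x ∧ y ∈ N H b x' ∧ H x x' y).card =
        ∑ y : V, ∑ x ∈ B H b, ∑ x' ∈ B H b, if y ∈ N H b x ∧ y ∈ N H b x' ∧ H x x' y then 1 else 0 := by
      simp only [card_filter]
      rw [sum_comm (s := (univ : Finset V)) (t := B H b)]
      refine sum_congr rfl fun x _ => ?_
      rw [sum_comm]
    rw [e1]
    refine (sum_le_sum fun y _ => ?_).trans (sum_le_sum_of_subset (subset_univ (L H b)))
    have e2 : f H b y = ∑ x ∈ NB H b y, ∑ x' ∈ NB H b y, if H x x' y then 1 else 0 := by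
      unfold f
      simp only [card_filter]
    rw [e2]
    have hsub : NB H b y ⊆ B H b := fun x hx => (mem_filter.1 hx).2
    have hN : ∀ x ∈ NB H b y, y ∈ N H b x := fun x hx => N_symm h (mem_filter.1 hx).1
    refine le_trans ?_ (sum_le_sum_of_subset hsub)
    refine sum_le_sum fun x hx => ?_
    refine le_trans ?_ (sum_le_sum_of_subset hsub)
    refine sum_le_sum fun x' hx' => ?_
    by_cases h3 : H x x' y
    · rw [if_pos h3, if_pos ⟨hN x hx, hN x' hx', h3⟩]
    · rw [if_neg h3]; omega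
  refine h1.trans ?_
  have h2 : ∑ x ∈ B H b, ∑ x' ∈ B H b,
      (univ.filter fun y => y ∈ N H b x ∧ y ∈ N H b x' ∧ H x x' y).card ≤
      (B H b).card * ((B H b).card * (2 * (b + 1))) := by
    rw [← smul_eq_mul]
    refine sum_le_card_nsmul _ _ _ fun x _ => ?_
    rw [← smul_eq_mul]
    exact sum_le_card_nsmul _ _ _ fun x' _ => card_W h x x'
  refine h2.trans ?_
  have h3 := card_B h hirr hb
  obtain ⟨c, rfl⟩ : ∃ c, b = c + 1 := ⟨b - 1, by omega⟩
  have h4 : (B H (c + 1)).card ≤ 2 * c + 1 := by omega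
  have h5 : (B H (c + 1)).card * ((B H (c + 1)).card * (2 * (c + 1 + 1))) ≤
      (2 * c + 1) * ((2 * c + 1) * (2 * (c + 1 + 1))) :=
    Nat.mul_le_mul h4 (Nat.mul_le_mul_right _ h4)
  refine h5.trans ?_
  nlinarith [sq_nonneg c]

theorem E_le (h : Free H) (hb : 0 < b) :
    ∑ y ∈ L H b, (NL H b y).card ≤ 40 * b ^ 3 := by
  have h1 := pairs_le (S := (b : ℝ) + 1) (K := 2 * (b : ℝ) ^ 2 + 3 * b) h (by positivity) (L H b)
    (fun x hx => by
      have h2 := mem_L.1 hx
      rw [B, mem_filter, not_and, not_lt] at h2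
      have h3 := h2 (mem_univ _)
      have h4 : ((nb H ((b : ℝ) + 1) x).filter (· ∈ L H b)).card ≤ 2 * b ^ 2 + 3 * b :=
        (card_filter_le _ _).trans h3
      exact_mod_cast h4) (by positivity)
  have h2 : ((∑ y ∈ L H b, (NL H b y).card : ℕ) : ℝ) ≤ 4 * ((b : ℝ) + 1) * (2 * (b : ℝ) ^ 2 + 3 * b) := by
    push_cast
    exact h1
  have h3 : ∑ y ∈ L H b, (NL H b y).card ≤ 4 * (b + 1) * (2 * b ^ 2 + 3 * b) := by
    exact_mod_cast h2
  refine h3.trans ?_
  obtain ⟨c, rfl⟩ : ∃ c, b = c + 1 := ⟨b - 1, by omega⟩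
  nlinarith [sq_nonneg c]

theorem NB_NL (y : V) : (N H b y).card = (NB H b y).card + (NL H b y).card := by
  rw [← card_filter_add_card_filter_not (s := N H b y) (fun x => x ∈ B H b)]
  unfold NB NL
  congr 2
  ext x
  rw [mem_filter, mem_filter, mem_L]

/-- edges between `B` and `L`, counted twice -/
theorem BL (h : Free H) : ∑ x ∈ B H b, (NL H b x).card = ∑ y ∈ L H b, (NB H b y).card := by
  unfold NL NB
  simp only [card_filter]
  have e1 : ∀ x : V, ∑ y ∈ N H b x, (if y ∈ L H b then 1 else 0) =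
      ∑ y ∈ L H b, if y ∈ N H b x then 1 else 0 := by
    intro x
    rw [← sum_filter, ← sum_filter]
    congr 1
    ext y
    simp only [mem_filter]
    tauto
  have e2 : ∀ y : V, ∑ x ∈ N H b y, (if x ∈ B H b then 1 else 0) =
      ∑ x ∈ B H b, if y ∈ N H b x then 1 else 0 := by
    intro y
    rw [← sum_filter, ← sum_filter]
    congr 1
    ext x
    simp only [mem_filter]
    exact ⟨fun h1 => ⟨h1.2, N_symm h h1.1⟩, fun h1 => ⟨N_symm h h1.2, h1.1⟩⟩
  simp only [e1, e2]
  exact sum_comm

theorem total (h : Free H) (hirr : ∀ x y z, H x y z → x ≠ y) (hb : 0 < b) :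
    ∑ x : V, (N H b x).card ≤ 2 * (∑ y ∈ L H b, (NB H b y).card) + 4 * b ^ 2 + 40 * b ^ 3 := by
  have h1 : ∑ x : V, (N H b x).card = ∑ x ∈ B H b, (N H b x).card + ∑ x ∈ L H b, (N H b x).card := by
    rw [← sum_filter_add_sum_filter_not univ (fun x => x ∈ B H b)]
    congr 1
    · refine sum_congr ?_ fun _ _ => rfl
      ext x; simp
  rw [h1]
  simp only [NB_NL, sum_add_distrib]
  rw [BL h]
  have h2 : ∑ x ∈ B H b, (NB H b x).card ≤ (B H b).card * (B H b).card := by
    rw [← smul_eq_mul]
    exact sum_le_card_nsmul _ _ _ fun x _ => card_le_card fun y hy => (mem_filter.1 hy).2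
  have h3 := card_B h hirr hb
  have h4 : (B H b).card * (B H b).card ≤ (2 * b) * (2 * b) := Nat.mul_le_mul (by omega) (by omega)
  have h5 := E_le h hb
  nlinarith

/-- the vertices without exceptional behaviour -/
def Good (H : V → V → V → Prop) (b : ℕ) (y : V) : Prop :=
  y ∉ B H b ∧ f H b y = 0 ∧ NL H b y = ∅

theorem bad_card (h : Free H) (hirr : ∀ x y z, H x y z → x ≠ y) (hb : 0 < b) :
    (univ.filter fun y => ¬ Good H b y).card ≤ 50 * b ^ 3 := by
  have h1 : (univ.filter fun y => ¬ Good H b y) ⊆ B H b ∪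
      ((L H b).filter fun y => f H b y ≠ 0) ∪ ((L H b).filter fun y => NL H b y ≠ ∅) := by
    intro y hy
    have h2 := (mem_filter.1 hy).2
    rw [mem_union, mem_union, mem_filter, mem_filter, mem_L]
    unfold Good at h2
    tauto
  have h2 : ((L H b).filter fun y => f H b y ≠ 0).card ≤ 8 * b ^ 3 := by
    refine le_trans ?_ (F_le h hirr hb)
    rw [card_filter]
    refine sum_le_sum fun y _ => ?_
    split_ifs with h3
    · exact Nat.one_le_iff_ne_zero.2 h3
    · omega
  have h3 : ((L H b).filter fun y => NL H b y ≠ ∅).card ≤ 40 * b ^ 3 := by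
    refine le_trans ?_ (E_le h hb)
    rw [card_filter]
    refine sum_le_sum fun y _ => ?_
    split_ifs with h3
    · exact card_pos.2 (nonempty_iff_ne_empty.2 h3)
    · omega
  have h4 := card_B h hirr hb
  have h5 := (card_le_card h1).trans ((card_union_le _ _).trans
    (Nat.add_le_add_right (card_union_le _ _) _))
  have h6 : b ≤ b ^ 3 := by nlinarith [Nat.pow_le_pow_left hb 2]
  omega

theorem good_sub (h : Free H) (hirr : ∀ x y z, H x y z → x ≠ y) {x y : V} (hy : Good H b y)
    (hx : x ∈ N H b y) : insert y (N H b y) ⊆ M H x y := by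
  obtain ⟨h1, h2, h3⟩ := hy
  have h4 : ∀ z ∈ N H b y, z ∈ NB H b y := by
    intro z hz
    unfold NB
    rw [mem_filter]
    refine ⟨hz, ?_⟩
    by_contra h5
    have : z ∈ NL H b y := mem_filter.2 ⟨hz, mem_L.2 h5⟩
    rw [h3] at this
    exact absurd this (notMem_empty _)
  intro z hz
  rw [mem_insert] at hz
  rcases hz with rfl | hz
  · exact (self_M h hirr x z).2
  · rw [mem_M]
    intro h5
    unfold f at h2
    rw [sum_eq_zero_iff] at h2
    have h6 := h2 x (h4 x hx)
    rw [card_eq_zero] at h6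
    have h7 : z ∈ (NB H b y).filter fun x' => H x x' y := mem_filter.2 ⟨h4 z hz, h.s2 _ _ _ h5⟩
    rw [h6] at h7
    exact absurd h7 (notMem_empty _)

theorem y_notMem (hirr : ∀ x y z, H x y z → x ≠ y) (hn : b + 1 < Fintype.card V) (y : V) :
    y ∉ N H b y := by
  intro hy
  have h1 := mem_N.1 hy
  have : (univ : Finset V) ⊆ M H y y := fun z _ => by
    rw [mem_M]
    exact fun h3 => hirr _ _ _ h3 rfl
  have h6 := card_le_card this
  rw [card_univ] at h6
  omega

theorem good_card (h : Free H) (hirr : ∀ x y z, H x y z → x ≠ y) (hn : b + 1 < Fintype.card V)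
    {x y : V} (hy : Good H b y) (hx : x ∈ N H b y) : (N H b y).card + 1 ≤ (M H x y).card := by
  have := card_le_card (good_sub h hirr hy hx)
  rwa [card_insert_of_notMem (y_notMem hirr hn y)] at this

/-- if there are many pairs, nearly all vertices have exactly `b` neighbours -/
theorem imperfect (h : Free H) (hirr : ∀ x y z, H x y z → x ≠ y) (hb : 0 < b)
    (hbn : b ≤ Fintype.card V)
    (hE : 2 * (b * (Fintype.card V - b)) ≤ ∑ x : V, (N H b x).card) :
    (univ.filter fun y => ¬ (Good H b y ∧ (N H b y).card = b)).card ≤ 85 * b ^ 3 := by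
  set Q := ((L H b).filter fun y => (NB H b y).card < b).card with hQ
  have h1 : b * (∑ y ∈ L H b, (NB H b y).card) + b * Q ≤ b ^ 2 * (L H b).card + ∑ y ∈ L H b, f H b y := by
    have h2 : ∀ y ∈ L H b, b * (NB H b y).card + b * (if (NB H b y).card < b then 1 else 0) ≤
        b ^ 2 + f H b y := by
      intro y hy
      split_ifs with h3
      · nlinarith
      · have h4 := g_sq h hirr (mem_L.1 hy)
        rw [not_lt] at h3
        obtain ⟨d, hd⟩ := Nat.exists_eq_add_of_le h3
        rw [hd] at h4 ⊢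
        nlinarith
    have h3 := sum_le_sum h2
    simp only [sum_add_distrib, ← mul_sum] at h3
    rw [hQ, card_filter]
    rw [sum_const, smul_eq_mul] at h3
    linarith
  have h2 := F_le h hirr hb
  have h3 := total h hirr hb
  have h4 : (L H b).card ≤ Fintype.card V := card_le_univ _
  obtain ⟨r, hr⟩ := Nat.exists_eq_add_of_le hbn
  have hQle : Q ≤ 31 * b ^ 3 := by
    have e1 : Fintype.card V - b = r := by omega
    rw [e1] at hE
    have e2 : b * (2 * (b * r)) ≤ b * (2 * (∑ y ∈ L H b, (NB H b y).card) + 4 * b ^ 2 + 40 * b ^ 3) :=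
      Nat.mul_le_mul_left _ (hE.trans h3)
    have e3 : b ^ 2 * (L H b).card ≤ b ^ 2 * (b + r) := Nat.mul_le_mul_left _ (h4.trans hr.le)
    have e4 : 2 * (b * Q) ≤ b * (62 * b ^ 3) := by
      have e5 : b ^ 2 * b ≤ b ^ 2 * b ^ 2 := Nat.mul_le_mul_left _ (by nlinarith)
      nlinarith
    have e5 : b * (2 * Q) ≤ b * (62 * b ^ 3) := by linarith
    have := Nat.le_of_mul_le_mul_left e5 hb
    omega
  have h5 : (univ.filter fun y => ¬ (Good H b y ∧ (N H b y).card = b)) ⊆
      (univ.filter fun y => ¬ Good H b y) ∪ ((L H b).filter fun y => (NB H b y).card < b) := by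
    intro y hy
    have h6 := (mem_filter.1 hy).2
    rw [mem_union, mem_filter, mem_filter, mem_L]
    by_cases h7 : Good H b y
    · right
      refine ⟨h7.1, ?_⟩
      have h8 := NB_NL (H := H) (b := b) y
      rw [h7.2.2, card_empty, add_zero] at h8
      by_contra h9
      apply h6
      refine ⟨h7, le_antisymm ?_ ?_⟩
      · rw [h8]
        have h10 := g_sq h hirr h7.1
        rw [h7.2.1, add_zero] at h10
        rcases Nat.eq_zero_or_pos (NB H b y).card with h11 | h11
        · omega
        · exact Nat.le_of_mul_le_mul_right h10 h11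
      · rw [h8]
        omega
    · left
      exact ⟨mem_univ _, h7⟩
  have h6 := (card_le_card h5).trans (card_union_le _ _)
  have h7 := bad_card h hirr hb
  omega

end Pool.Agent.Run7.h346.CT
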