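import Pool.Agent.Run7.h346.CT.Main

/-!
The structure of the extremal graphs.
-/

set_option autoImplicit false
open Finset
open scoped Classical

namespace Pool.Agent.Run7.h346.CT

open Pool.Agent.Run7.h346.LC

variable {V : Type} [Fintype V] {H : V → V → V → Prop} {b : ℕ}

theorem good_B {x y : V} (hy : Good H b y) (hx : x ∈ N H b y) : x ∈ B H b := by
  by_contra h5
  have : x ∈ NL H b y := mem_filter.2 ⟨hx, mem_L.2 h5⟩
  rw [hy.2.2] at this
  exact absurd this (notMem_empty _)

theorem perfect_M (h : Free H) (hirr : ∀ x y z, H x y z → x ≠ y) (hn : b + 1 < Fintype.card V)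
    {x y : V} (hy : Good H b y) (hyb : (N H b y).card = b) (hx : x ∈ N H b y) :
    M H x y = insert y (N H b y) := by
  symm
  refine eq_of_subset_of_card_le (good_sub h hirr hy hx) ?_
  rw [card_insert_of_notMem (y_notMem hirr hn y), hyb]
  exact mem_N.1 (N_symm h hx)

theorem perfect_N (h : Free H) (hirr : ∀ x y z, H x y z → x ≠ y) (hn : b + 1 < Fintype.card V)
    {y y' : V} (hy : Good H b y) (hyb : (N H b y).card = b) (hy' : Good H b y')
    (hyb' : (N H b y').card = b) : N H b y = N H b y' := by
  by_contra hne
  have h1 : ∃ x ∈ N H b y, x ∉ N H b y' := by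
    by_contra hcon
    push Not at hcon
    exact hne (eq_of_subset_of_card_le hcon (by omega))
  have h2 : ∃ x ∈ N H b y', x ∉ N H b y := by
    by_contra hcon
    push Not at hcon
    exact hne (eq_of_subset_of_card_le hcon (by omega)).symm
  obtain ⟨x, hx, hx2⟩ := h1
  obtain ⟨x', hx', hx2'⟩ := h2
  have hyy : y ≠ y' := fun h3 => hne (by rw [h3])
  rcases cross h x y x' y' with h3 | h3 | h3 | h3
  · rw [perfect_M h hirr hn hy hyb hx, mem_insert] at h3
    rcases h3 with h3 | h3
    · exact hy.1 (h3 ▸ good_B hy' hx')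
    · exact hx2' h3
  · rw [perfect_M h hirr hn hy hyb hx, mem_insert] at h3
    rcases h3 with h3 | h3
    · exact hyy h3.symm
    · exact hy'.1 (good_B hy h3)
  · rw [perfect_M h hirr hn hy' hyb' hx', mem_insert] at h3
    rcases h3 with h3 | h3
    · exact hy'.1 (h3 ▸ good_B hy hx)
    · exact hx2 h3
  · rw [perfect_M h hirr hn hy' hyb' hx', mem_insert] at h3
    rcases h3 with h3 | h3
    · exact hyy h3
    · exact hy.1 (good_B hy' h3)

/-- if there are at least `2 b (n - b)` ordered pairs, they all join a fixed set of `b` vertices to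
its complement -/
theorem str (h : Free H) (hirr : ∀ x y z, H x y z → x ≠ y) (hb : 0 < b)
    (hn : 100 * b ^ 3 ≤ Fintype.card V)
    (hE : 2 * (b * (Fintype.card V - b)) ≤ ∑ x : V, (N H b x).card) :
    ∃ B₀ X : Finset V, B₀.card = b ∧
      (∀ x y : V, y ∈ N H b x → (x ∈ B₀ ∧ y ∉ B₀) ∨ (x ∉ B₀ ∧ y ∈ B₀)) ∧
      X.card ≤ 85 * b ^ 3 ∧ ∀ y, y ∉ X → ∀ x ∈ B₀, ∀ z, (z ∈ M H x y ↔ z = y ∨ z ∈ B₀) := by
  have hb3 : b ≤ b ^ 3 := by nlinarith [Nat.pow_le_pow_left hb 2]
  have hn1 : b + 1 < Fintype.card V := by omega
  have h1 := imperfect h hirr hb (by omega) hE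
  set P := univ.filter fun y => Good H b y ∧ (N H b y).card = b with hP
  have h2 : (univ.filter fun y => ¬ (Good H b y ∧ (N H b y).card = b)).card + P.card =
      Fintype.card V := by
    rw [add_comm, hP, card_filter_add_card_filter_not, card_univ]
  have h3 : b + 1 < P.card := by omega
  obtain ⟨y₀, hy₀⟩ : P.Nonempty := card_pos.1 (by omega)
  have hy0 := (mem_filter.1 hy₀).2
  have hPN : ∀ y ∈ P, N H b y = N H b y₀ := fun y hy =>
    perfect_N h hirr hn1 (mem_filter.1 hy).2.1 (mem_filter.1 hy).2.2 hy0.1 hy0.2
  have hPM : ∀ y ∈ P, ∀ x ∈ N H b y₀, M H x y = insert y (N H b y₀) := fun y hy x hx => by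
    rw [← hPN y hy]
    rw [← hPN y hy] at hx
    exact perfect_M h hirr hn1 (mem_filter.1 hy).2.1 (mem_filter.1 hy).2.2 hx
  have hPn : ∀ y ∈ P, y ∉ N H b y₀ := fun y hy hy2 => (mem_filter.1 hy).2.1.1 (good_B hy0.1 hy2)
  refine ⟨N H b y₀, univ.filter (fun y => ¬ (Good H b y ∧ (N H b y).card = b)), hy0.2, ?_, h1, ?_⟩
  · intro x y hxy
    by_cases hx : x ∈ N H b y₀
    · by_cases hy : y ∈ N H b y₀
      · exfalso
        have h4 : P ⊆ M H x y := by
          intro w hw
          have h5 : y ∈ M H x w := by
            rw [hPM w hw x hx]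
            exact mem_insert_of_mem hy
          rw [mem_M] at h5 ⊢
          exact fun h6 => h5 (h.s2 _ _ _ h6)
        have h5 := card_le_card h4
        have h6 := mem_N.1 hxy
        omega
      · exact Or.inl ⟨hx, hy⟩
    · by_cases hy : y ∈ N H b y₀
      · exact Or.inr ⟨hx, hy⟩
      · exfalso
        have h6 := mem_N.1 hxy
        obtain ⟨w, hwP, hw⟩ : ∃ w ∈ P, w ∉ M H x y := by
          by_contra hcon
          push Not at hcon
          have := card_le_card hcon
          omega
        have hself := self_M h hirr x y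
        have h4 : insert x (insert y (N H b y₀)) ⊆ M H x y := by
          intro z hz
          rw [mem_insert, mem_insert] at hz
          rcases hz with rfl | rfl | hz
          · exact hself.1
          · exact hself.2
          · rcases cross h z w x y with h7 | h7 | h7 | h7
            · rw [hPM w hwP z hz, mem_insert] at h7
              rcases h7 with h7 | h7
              · exact absurd hself.1 (h7 ▸ hw)
              · exact absurd h7 hx
            · rw [hPM w hwP z hz, mem_insert] at h7
              rcases h7 with h7 | h7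
              · exact absurd hself.2 (h7 ▸ hw)
              · exact absurd h7 hy
            · exact h7
            · exact absurd h7 hw
        have h7 := card_le_card h4
        have h8 : x ≠ y := by
          rintro rfl
          exact y_notMem hirr hn1 x hxy
        rw [card_insert_of_notMem (by
          rw [mem_insert, not_or]
          exact ⟨h8, hx⟩), card_insert_of_notMem hy, hy0.2] at h7
        omega
  · intro y hy x hx z
    rw [mem_filter, not_and, not_not] at hy
    rw [hPM y (mem_filter.2 ⟨mem_univ _, hy (mem_univ _)⟩) x hx, mem_insert]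

/-- the number of the pairs -/
theorem count_le (h : Free H) (hirr : ∀ x y z, H x y z → x ≠ y) (hb : 0 < b)
    (hn : 100 * b ^ 3 ≤ Fintype.card V) :
    ∑ x : V, (N H b x).card ≤ 2 * (b * (Fintype.card V - b)) := by
  by_contra hcon
  rw [not_le] at hcon
  obtain ⟨B₀, -, hB, h1, -⟩ := str h hirr hb hn hcon.le
  have h2 : ∑ x : V, (N H b x).card ≤ ∑ x : V, (if x ∈ B₀ then (Fintype.card V - b) else b) := by
    refine sum_le_sum fun x _ => ?_
    split_ifs with h3
    · have : N H b x ⊆ univ \ B₀ := fun y hy => by
        rcases h1 x y hy with h4 | h4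
        · simp [h4.2]
        · exact absurd h3 h4.1
      have := card_le_card this
      rwa [card_sdiff_of_subset (subset_univ _), card_univ, hB] at this
    · have : N H b x ⊆ B₀ := fun y hy => by
        rcases h1 x y hy with h4 | h4
        · exact absurd h4.1 h3
        · exact h4.2
      have := card_le_card this
      rwa [hB] at this
  rw [sum_ite, sum_const, sum_const, smul_eq_mul, smul_eq_mul] at h2
  have h3 : (univ.filter fun x => x ∈ B₀) = B₀ := by ext; simp
  have h4 : (univ.filter fun x => x ∉ B₀) = univ \ B₀ := by ext; simp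
  rw [h3, h4, card_sdiff_of_subset (subset_univ _), card_univ, hB] at h2
  linarith [mul_comm (Fintype.card V - b) b]

end Pool.Agent.Run7.h346.CT
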