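import Pool.Agent.Run7.h346.CT.Str

/-!
The generating function of the codegrees.
-/

set_option autoImplicit false
open Finset
open scoped Classical

namespace Pool.Agent.Run7.h346.CT

open Pool.Agent.Run7.h346.LC

variable {V : Type} [Fintype V] {H : V → V → V → Prop} {b : ℕ}

/-- the weight of a pair -/
noncomputable def wt (H : V → V → V → Prop) (r : ℝ) (x y : V) : ℝ := r ^ ((M H x y).card - 2)

theorem wt_symm (h : Free H) (r : ℝ) (x y : V) : wt H r x y = wt H r y x := by
  unfold wt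
  rw [M_symm h]

theorem wt_nonneg {r : ℝ} (hr : 0 ≤ r) (x y : V) : 0 ≤ wt H r x y := pow_nonneg hr _
theorem wt_le {r : ℝ} (hr : 0 ≤ r) (hr1 : r ≤ 1) (x y : V) : wt H r x y ≤ 1 := pow_le_one₀ hr hr1

theorem good_wt (h : Free H) (hirr : ∀ x y z, H x y z → x ≠ y) (hn : b + 1 < Fintype.card V)
    {r s : ℝ} (hr : 0 ≤ r) (hr1 : r ≤ 1) (hs : ∀ k : ℕ, (k : ℝ) * r ^ (k - 1) ≤ s)
    {y : V} (hy : Good H b y) : ∑ x ∈ N H b y, wt H r x y ≤ s := by
  refine le_trans ?_ (hs (N H b y).card)
  rw [← nsmul_eq_mul]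
  refine sum_le_card_nsmul _ _ _ fun x hx => ?_
  unfold wt
  have h1 := good_card h hirr hn hy hx
  exact pow_le_pow_of_le_one hr hr1 (by omega)

/-- the pairs of large codegree -/
theorem wt_near (h : Free H) (hirr : ∀ x y z, H x y z → x ≠ y) (hb : 0 < b)
    (hn : b + 1 < Fintype.card V)
    {r s : ℝ} (hr : 0 ≤ r) (hr1 : r ≤ 1) (hs : ∀ k : ℕ, (k : ℝ) * r ^ (k - 1) ≤ s) :
    ∑ y : V, ∑ x ∈ N H b y, wt H r x y ≤ 2 * s * Fintype.card V + 300 * (b : ℝ) ^ 4 := by
  have hw0 : ∀ x y : V, 0 ≤ wt H r x y := wt_nonneg hr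
  have hw1 : ∀ x y : V, wt H r x y ≤ 1 := wt_le hr hr1
  have hs0 : 0 ≤ s := by simpa using hs 0
  have e1 : ∀ y : V, ∑ x ∈ N H b y, wt H r x y =
      ∑ x ∈ NB H b y, wt H r x y + ∑ x ∈ NL H b y, wt H r x y := by
    intro y
    rw [← sum_filter_add_sum_filter_not (N H b y) (fun x => x ∈ B H b)]
    congr 1
    refine sum_congr ?_ fun _ _ => rfl
    ext x
    simp only [NL, mem_filter, mem_L]
  have e2 : ∑ y : V, ∑ x ∈ N H b y, wt H r x y =
      (∑ y ∈ B H b, ∑ x ∈ NB H b y, wt H r x y + ∑ y ∈ B H b, ∑ x ∈ NL H b y, wt H r x y) +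
      (∑ y ∈ L H b, ∑ x ∈ NB H b y, wt H r x y + ∑ y ∈ L H b, ∑ x ∈ NL H b y, wt H r x y) := by
    rw [← sum_filter_add_sum_filter_not univ (fun y => y ∈ B H b), ← sum_add_distrib,
      ← sum_add_distrib]
    congr 1
    · refine sum_congr (by ext; simp) fun y _ => e1 y
    · refine sum_congr (by ext; simp [mem_L]) fun y _ => e1 y
  have e3 : ∑ y ∈ B H b, ∑ x ∈ NL H b y, wt H r x y = ∑ y ∈ L H b, ∑ x ∈ NB H b y, wt H r x y := by
    have a1 : ∀ x : V, ∑ y ∈ NL H b x, wt H r y x =
        ∑ y ∈ L H b, if y ∈ N H b x then wt H r y x else 0 := by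
      intro x
      rw [← sum_filter]
      refine sum_congr ?_ fun _ _ => rfl
      ext y
      simp only [NL, mem_filter]
      tauto
    have a2 : ∀ y : V, ∑ x ∈ NB H b y, wt H r x y =
        ∑ x ∈ B H b, if y ∈ N H b x then wt H r y x else 0 := by
      intro y
      rw [← sum_filter]
      refine sum_congr ?_ fun x _ => wt_symm h r x y
      ext x
      simp only [NB, mem_filter]
      exact ⟨fun h1 => ⟨h1.2, N_symm h h1.1⟩, fun h1 => ⟨N_symm h h1.2, h1.1⟩⟩
    simp only [a1, a2]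
    exact sum_comm
  have c1 : ∑ y ∈ B H b, ∑ x ∈ NB H b y, wt H r x y ≤ 4 * (b : ℝ) ^ 2 := by
    have h2 : ∀ y ∈ B H b, ∑ x ∈ NB H b y, wt H r x y ≤ 2 * b := by
      intro y _
      have h3 : ∑ x ∈ NB H b y, wt H r x y ≤ (NB H b y).card := by
        refine (sum_le_sum fun x _ => hw1 x y).trans ?_
        simp
      refine h3.trans ?_
      have h4 : (NB H b y).card ≤ (B H b).card := card_le_card fun z hz => (mem_filter.1 hz).2
      have h5 := card_B h hirr hb
      have h6 : (NB H b y).card ≤ 2 * b := by omega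
      exact_mod_cast h6
    refine (sum_le_sum h2).trans ?_
    rw [sum_const, nsmul_eq_mul]
    have h5 := card_B h hirr hb
    have h6 : (B H b).card ≤ 2 * b := by omega
    have h7 : ((B H b).card : ℝ) ≤ 2 * b := by exact_mod_cast h6
    nlinarith [(Nat.cast_nonneg b : (0 : ℝ) ≤ b)]
  have c2 : ∑ y ∈ L H b, ∑ x ∈ NL H b y, wt H r x y ≤ 40 * (b : ℝ) ^ 3 := by
    have h2 : ∑ y ∈ L H b, ∑ x ∈ NL H b y, wt H r x y ≤ ((∑ y ∈ L H b, (NL H b y).card : ℕ) : ℝ) := by
      push_cast
      refine sum_le_sum fun y _ => ?_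
      refine (sum_le_sum fun x _ => hw1 x y).trans ?_
      simp
    refine h2.trans ?_
    exact_mod_cast E_le h hb
  have c3 : ∑ y ∈ L H b, ∑ x ∈ NB H b y, wt H r x y ≤ s * Fintype.card V + 100 * (b : ℝ) ^ 4 := by
    have h2 : ∀ y : V, ∑ x ∈ NB H b y, wt H r x y ≤ s + 2 * b * ind (¬ Good H b y) := by
      intro y
      by_cases hy : Good H b y
      · rw [ind_false (not_not.2 hy), mul_zero, add_zero]
        refine le_trans ?_ (good_wt h hirr hn hr hr1 hs hy)
        exact sum_le_sum_of_subset_of_nonneg (filter_subset _ _) fun x _ _ => hw0 x y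
      · rw [ind_true hy, mul_one]
        have h3 : ∑ x ∈ NB H b y, wt H r x y ≤ (NB H b y).card := by
          refine (sum_le_sum fun x _ => hw1 x y).trans ?_
          simp
        have h4 : (NB H b y).card ≤ (B H b).card := card_le_card fun z hz => (mem_filter.1 hz).2
        have h5 := card_B h hirr hb
        have h6 : (NB H b y).card ≤ 2 * b := by omega
        have h7 : ((NB H b y).card : ℝ) ≤ 2 * b := by exact_mod_cast h6
        linarith
    have h3 : ∑ y ∈ L H b, ∑ x ∈ NB H b y, wt H r x y ≤ ∑ y : V, ∑ x ∈ NB H b y, wt H r x y :=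
      sum_le_sum_of_subset_of_nonneg (subset_univ _) fun y _ _ => sum_nonneg fun x _ => hw0 x y
    refine h3.trans ((sum_le_sum fun y _ => h2 y).trans ?_)
    rw [sum_add_distrib, sum_const, card_univ, nsmul_eq_mul, ← mul_sum, ← card_sum]
    have h4 : ((univ.filter fun y => ¬ Good H b y).card : ℝ) ≤ 50 * (b : ℝ) ^ 3 := by
      exact_mod_cast bad_card h hirr hb
    have h5 : (0 : ℝ) ≤ b := Nat.cast_nonneg b
    nlinarith
  have hb1 : (1 : ℝ) ≤ b := by exact_mod_cast hb
  have p2 : (b : ℝ) ^ 2 ≤ (b : ℝ) ^ 4 := pow_le_pow_right₀ hb1 (by norm_num)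
  have p3 : (b : ℝ) ^ 3 ≤ (b : ℝ) ^ 4 := pow_le_pow_right₀ hb1 (by norm_num)
  rw [e2, e3]
  nlinarith

/-- the number of pairs with a given number of missing vertices -/
theorem eq_card (h : Free H) (j : ℕ) :
    ((univ.filter fun p : V × V => (M H p.1 p.2).card = j).card : ℝ) ≤ 4 * j * Fintype.card V := by
  refine le_trans ?_ (all_pairs (S := (j : ℝ)) h (Nat.cast_nonneg j))
  rw [card_sum, ← univ_product_univ, sum_product]
  refine sum_le_sum fun x _ => ?_
  rw [← card_sum]
  unfold k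
  refine Nat.cast_le.2 (card_le_card fun y hy => ?_)
  rw [mem_nb, m, (mem_filter.1 hy).2]

/-- **The generating function of the codegrees, upper bound.** -/
theorem wt_all {r s : ℝ} (hr : 0 < r) (hr1 : r < 1) (hs : ∀ k : ℕ, (k : ℝ) * r ^ (k - 1) ≤ s)
    {ε : ℝ} (hε : 0 < ε) : ∃ n₀ : ℕ, ∀ (V : Type) [Fintype V] (H : V → V → V → Prop), Free H →
      (∀ x y z, H x y z → x ≠ y) → n₀ ≤ Fintype.card V →
      ∑ p : V × V, wt H r p.1 p.2 ≤ (2 * s + ε) * Fintype.card V := by
  have hsum : Summable fun j : ℕ => 4 * (j : ℝ) * r ^ j / r ^ 2 := by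
    have h1 := summable_pow_mul_geometric_of_norm_lt_one (R := ℝ) 1 (r := r)
      (by rw [Real.norm_eq_abs, abs_of_pos hr]; exact hr1)
    simpa [pow_one, mul_assoc, mul_div_assoc, mul_comm, mul_left_comm] using
      (h1.mul_left 4).div_const (r ^ 2)
  obtain ⟨b, hb0, hb⟩ : ∃ b : ℕ, 0 < b ∧ ∀ t : Finset ℕ, (∀ j ∈ t, b < j) →
      ∑ j ∈ t, 4 * (j : ℝ) * r ^ j / r ^ 2 ≤ ε / 2 := by
    obtain ⟨t, ht⟩ := summable_iff_vanishing_norm.1 hsum (ε / 2) (by positivity)
    refine ⟨t.sup id + 1, by omega, fun u hu => ?_⟩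
    have h2 := ht u (by
      rw [Finset.disjoint_left]
      intro j hj1 hj2
      have h3 := hu j hj1
      have h4 : j ≤ t.sup id := Finset.le_sup (f := id) hj2
      omega)
    exact (le_abs_self _).trans (by rw [← Real.norm_eq_abs]; exact h2.le)
  refine ⟨b + 2 + ⌈600 * (b : ℝ) ^ 4 / ε⌉₊, fun V _ H h hirr hn => ?_⟩
  have hn1 : b + 1 < Fintype.card V := by omega
  have hn2 : 600 * (b : ℝ) ^ 4 / ε ≤ Fintype.card V := by
    refine (Nat.le_ceil _).trans ?_
    have : ⌈600 * (b : ℝ) ^ 4 / ε⌉₊ ≤ Fintype.card V := by omega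
    exact_mod_cast this
  have h1 := wt_near h hirr hb0 hn1 hr.le hr1.le hs
  have h2 : ∑ p : V × V, wt H r p.1 p.2 = ∑ y : V, ∑ x ∈ N H b y, wt H r x y +
      ∑ p ∈ univ.filter (fun p : V × V => b + 1 < (M H p.1 p.2).card), wt H r p.1 p.2 := by
    rw [← sum_filter_add_sum_filter_not univ (fun p : V × V => (M H p.1 p.2).card ≤ b + 1)]
    congr 1
    · rw [sum_filter, ← univ_product_univ, sum_product, sum_comm]
      refine sum_congr rfl fun y _ => ?_
      rw [← sum_filter]
      refine sum_congr ?_ fun _ _ => rfl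
      ext x
      rw [mem_filter, mem_N, M_symm h y x]
      simp
    · refine sum_congr ?_ fun _ _ => rfl
      ext p
      simp
  have h3 : ∑ p ∈ univ.filter (fun p : V × V => b + 1 < (M H p.1 p.2).card), wt H r p.1 p.2 ≤
      ε / 2 * Fintype.card V := by
    have h4 : ∑ p ∈ univ.filter (fun p : V × V => b + 1 < (M H p.1 p.2).card), wt H r p.1 p.2 =
        ∑ j ∈ (range (Fintype.card V + 1)).filter (fun j => b + 1 < j),
          ((univ.filter fun p : V × V => (M H p.1 p.2).card = j).card : ℝ) * r ^ (j - 2) := by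
      rw [← sum_fiberwise_of_maps_to (s := univ.filter (fun p : V × V => b + 1 < (M H p.1 p.2).card))
        (t := (range (Fintype.card V + 1)).filter (fun j => b + 1 < j))
        (g := fun p : V × V => (M H p.1 p.2).card)]
      · refine sum_congr rfl fun j hj => ?_
        rw [← nsmul_eq_mul]
        have h5 := (mem_filter.1 hj).2
        have h6 : ((univ.filter (fun p : V × V => b + 1 < (M H p.1 p.2).card)).filter
            fun p => (M H p.1 p.2).card = j) = univ.filter fun p : V × V => (M H p.1 p.2).card = j := by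
          ext p
          simp only [mem_filter, mem_univ, true_and]
          constructor
          · exact fun h7 => h7.2
          · exact fun h7 => ⟨by rw [h7]; exact h5, h7⟩
        rw [h6]
        refine sum_eq_card_nsmul fun p hp => ?_
        unfold wt
        rw [(mem_filter.1 hp).2]
      · intro p hp
        rw [mem_filter, mem_range]
        refine ⟨?_, (mem_filter.1 hp).2⟩
        have := card_le_univ (M H p.1 p.2)
        omega
    rw [h4]
    calc _ ≤ ∑ j ∈ (range (Fintype.card V + 1)).filter (fun j => b + 1 < j),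
          4 * (j : ℝ) * r ^ j / r ^ 2 * ((Fintype.card V : ℕ) : ℝ) := by
          refine sum_le_sum fun j hj => ?_
          have h5 := (mem_filter.1 hj).2
          have h6 : r ^ (j - 2) = r ^ j / r ^ 2 := by
            rw [eq_div_iff (by positivity), ← pow_add]
            congr 1
            omega
          rw [h6]
          have h7 := mul_le_mul_of_nonneg_right (eq_card h j) (by positivity : 0 ≤ r ^ j / r ^ 2)
          refine h7.trans (le_of_eq ?_)
          ring
      _ = (∑ j ∈ (range (Fintype.card V + 1)).filter (fun j => b + 1 < j),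
          4 * (j : ℝ) * r ^ j / r ^ 2) * ((Fintype.card V : ℕ) : ℝ) := by rw [sum_mul]
      _ ≤ _ := by
          refine mul_le_mul_of_nonneg_right (hb _ fun j hj => ?_) (Nat.cast_nonneg _)
          have := (mem_filter.1 hj).2
          omega
  rw [h2]
  have h5 : 300 * (b : ℝ) ^ 4 ≤ ε / 2 * Fintype.card V := by
    rw [div_le_iff₀ hε] at hn2
    linarith
  linarith

end Pool.Agent.Run7.h346.CT
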